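import Pool.Agent.Helper99.BK.Stmts

/-! The degenerate case (module DEG for `MP_9d7cd1_nt`). -/

set_option autoImplicit false

namespace Pool.Helper99.BK

open NumberField

/-- The kernel of a nonzero linear form on `ℤ²` is generated by a primitive vector. -/
theorem deg_gen (μ1 μ2 : ℂ) (hμ : ¬ (μ1 = 0 ∧ μ2 = 0)) (m0 n0 : ℤ) (h0 : ¬ (m0 = 0 ∧ n0 = 0))
    (h : μ1 * (m0 : ℂ) + μ2 * (n0 : ℂ) = 0) : ∃ h1 h2 a b : ℤ, a * h1 + b * h2 = 1 ∧
      ∀ m n : ℤ, μ1 * (m : ℂ) + μ2 * (n : ℂ) = 0 → m = (a * m + b * n) * h1 ∧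
        n = (a * m + b * n) * h2 := by
  have hg : 0 < Int.gcd m0 n0 := by
    rw [Nat.pos_iff_ne_zero]
    intro hz
    exact h0 (Int.gcd_eq_zero_iff.1 hz)
  obtain ⟨m', n', hc, hm, hn⟩ := Int.exists_gcd_one hg
  obtain ⟨a, b, hab⟩ := Int.isCoprime_iff_gcd_eq_one.2 hc
  refine ⟨m', n', a, b, hab, ?_⟩
  have hgC : ((Int.gcd m0 n0 : ℕ) : ℂ) ≠ 0 := by exact_mod_cast hg.ne'
  have h' : μ1 * (m' : ℂ) + μ2 * (n' : ℂ) = 0 := by
    have e1 : (m0 : ℂ) = (m' : ℂ) * ((Int.gcd m0 n0 : ℕ) : ℂ) := by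
      have := congrArg (fun z : ℤ => (z : ℂ)) hm
      push_cast at this
      exact this
    have e2 : (n0 : ℂ) = (n' : ℂ) * ((Int.gcd m0 n0 : ℕ) : ℂ) := by
      have := congrArg (fun z : ℤ => (z : ℂ)) hn
      push_cast at this
      exact this
    have e3 : (μ1 * (m' : ℂ) + μ2 * (n' : ℂ)) * ((Int.gcd m0 n0 : ℕ) : ℂ) = 0 := by
      rw [← h, e1, e2]
      ring
    exact (mul_eq_zero.1 e3).resolve_right hgC
  intro m n hmn
  have key : m * n' = n * m' := by
    have e1 : μ1 * ((m : ℂ) * n' - n * m') = 0 := by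
      linear_combination (n' : ℂ) * hmn - (n : ℂ) * h'
    have e2 : μ2 * ((m : ℂ) * n' - n * m') = 0 := by
      linear_combination -(m' : ℂ) * hmn + (m : ℂ) * h'
    have e3 : (m : ℂ) * n' - n * m' = 0 := by
      by_contra hne
      exact hμ ⟨(mul_eq_zero.1 e1).resolve_right hne, (mul_eq_zero.1 e2).resolve_right hne⟩
    have e4 : (m : ℂ) * n' = n * m' := sub_eq_zero.1 e3
    exact_mod_cast e4
  constructor
  · linear_combination (-m) * hab + b * key
  · linear_combination (-n) * hab - a * key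

/-- The inclusion of the degenerate lattice. -/
def degL (h1 h2 : ℤ) (s : Fin 2 → ℤ) : Fin 3 → ℤ := ![s 0, s 1 * h1, s 1 * h2]

theorem degL_add (h1 h2 : ℤ) (s t : Fin 2 → ℤ) :
    degL h1 h2 (s + t) = degL h1 h2 s + degL h1 h2 t := by
  funext i
  fin_cases i
  · rfl
  · simp [degL, add_mul]
  · simp [degL, add_mul]

theorem degL_smul (h1 h2 n : ℤ) (s : Fin 2 → ℤ) :
    degL h1 h2 (n • s) = n • degL h1 h2 s := by
  funext i
  fin_cases i
  · rfl
  · simp [degL, mul_assoc]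
  · simp [degL, mul_assoc]

theorem degL_sub (h1 h2 : ℤ) (s t : Fin 2 → ℤ) :
    degL h1 h2 (s - t) = degL h1 h2 s - degL h1 h2 t := by
  funext i
  fin_cases i
  · rfl
  · simp [degL, sub_mul]
  · simp [degL, sub_mul]

theorem degL_prod {F : Type} [Field F] (γ : Fin 3 → F) (h1 h2 : ℤ)
    (s : Fin 2 → ℤ) : ∏ i, (![γ 0, γ 1 ^ h1 * γ 2 ^ h2] : Fin 2 → F) i ^ (s i) =
      ∏ i, γ i ^ (degL h1 h2 s i) := by
  rw [Fin.prod_univ_two, Fin.prod_univ_three]
  simp only [degL, Matrix.cons_val_zero, Matrix.cons_val_one, Matrix.cons_val_two,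
    Matrix.tail_cons, Matrix.head_cons, Matrix.cons_val_fin_one, Matrix.cons_val]
  rw [mul_zpow, ← zpow_mul, ← zpow_mul, mul_comm h1, mul_comm h2, mul_assoc]

theorem degL_lam (lam : Fin 3 → ℂ) (h1 h2 : ℤ) (s : Fin 2 → ℤ) :
    ∑ i, ((s i : ℤ) : ℂ) * (![lam 0, h1 * lam 1 + h2 * lam 2] : Fin 2 → ℂ) i =
      ∑ i, ((degL h1 h2 s i : ℤ) : ℂ) * lam i := by
  rw [Fin.sum_univ_two, Fin.sum_univ_three]
  simp only [degL, Matrix.cons_val_zero, Matrix.cons_val_one, Matrix.cons_val_two,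
    Matrix.tail_cons, Matrix.head_cons, Matrix.cons_val_fin_one, Matrix.cons_val]
  push_cast
  ring

/-- Separated real numbers in a short interval. -/
theorem deg_pack {α : Type} [DecidableEq α] (F : Finset α) (x : α → ℝ) (y r : ℝ) (hr : 0 ≤ r)
    (h1 : ∀ s ∈ F, |x s - y| ≤ r) (h2 : ∀ s ∈ F, ∀ t ∈ F, s ≠ t → 1 ≤ |x s - x t|) :
    (F.card : ℝ) ≤ 2 * r + 2 := by
  have hinj : Set.InjOn (fun s => ⌊x s⌋) (F : Set α) := by
    intro s hs t ht hst
    by_contra hne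
    have h3 := h2 s hs t ht hne
    have h4 := Int.abs_sub_lt_one_of_floor_eq_floor hst
    linarith
  have h3 : F.image (fun s => ⌊x s⌋) ⊆ Finset.Icc ⌊y - r⌋ ⌊y + r⌋ := by
    intro z hz
    obtain ⟨s, hs, rfl⟩ := Finset.mem_image.1 hz
    have h4 := abs_le.1 (h1 s hs)
    rw [Finset.mem_Icc]
    exact ⟨Int.floor_le_floor (by linarith), Int.floor_le_floor (by linarith)⟩
  have h4 := Finset.card_le_card h3
  rw [Finset.card_image_of_injOn hinj, Int.card_Icc] at h4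
  have h5 : (F.card : ℤ) ≤ ⌊y + r⌋ + 1 - ⌊y - r⌋ := by
    have h6 : ⌊y - r⌋ ≤ ⌊y + r⌋ := Int.floor_le_floor (by linarith)
    have h7 : ((⌊y + r⌋ + 1 - ⌊y - r⌋).toNat : ℤ) = ⌊y + r⌋ + 1 - ⌊y - r⌋ :=
      Int.toNat_of_nonneg (by omega)
    rw [← h7]
    exact_mod_cast h4
  have h6 : (F.card : ℝ) ≤ (⌊y + r⌋ : ℝ) + 1 - (⌊y - r⌋ : ℝ) := by exact_mod_cast h5
  have h7 := Int.floor_le (y + r)
  have h8 := Int.lt_floor_add_one (y - r)
  linarith

theorem st_DEG (hM2 : ST_M2) : ST_DEG := by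
  classical
  intro D c0 hc0
  obtain ⟨C2, hC2, h2⟩ := hM2 D
  have hC3 : (0 : ℝ) ≤ 4 / (3 * c0) := by positivity
  refine ⟨C2 * (4 / (3 * c0) + 2), by nlinarith, ?_⟩
  intro L _ _ hD φ γ lam nrm ℓ U Z hU hℓ hZ hlU hlZ hSz T μ1 μ2 hμ hT hTμ hcard
  have hU0 : 0 < U := by linarith
  have hneg : ∀ p, nrm (-p) = nrm p := by
    intro p
    have h := hSz.smul (-1) p
    rw [neg_one_smul] at h
    rw [h]; simp
  have hsub : ∀ p ∈ T, ∀ q ∈ T, nrm (p - q) ≤ 2 * U / 3 := by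
    intro p hp q hq
    have h := hSz.add p (-q)
    rw [hneg, ← sub_eq_add_neg] at h
    have := hT p hp
    have := hT q hq
    linarith
  have hadd : ∀ p ∈ T, ∀ q ∈ T, nrm (p + q) ≤ 2 * U / 3 := by
    intro p hp q hq
    have h := hSz.add p q
    have := hT p hp
    have := hT q hq
    linarith
  -- the last two coordinates are injective on `T`
  have hinj : ∀ p ∈ T, ∀ q ∈ T, p 1 = q 1 → p 2 = q 2 → p = q := by
    intro p hp q hq h1 h3
    by_contra hne
    have h0 : p 0 - q 0 ≠ 0 := by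
      intro h0
      apply hne
      funext i
      fin_cases i
      · exact sub_eq_zero.1 h0
      · exact h1
      · exact h3
    have e : p - q = (p 0 - q 0) • ![1, 0, 0] := by
      funext i
      fin_cases i
      · simp
      · simp [h1]
      · simp [h3]
    have h4 := hsub p hp q hq
    rw [e, hSz.smul] at h4
    have h5 : (1 : ℝ) ≤ |((p 0 - q 0 : ℤ) : ℝ)| := by
      rw [← Int.cast_abs]
      exact_mod_cast Int.one_le_abs h0
    have h6 := hSz.big
    nlinarith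
  have hC2' : 2 ≤ C2 * (4 / (3 * c0) + 2) := by nlinarith
  have hT2 : (2 : ℝ) ≤ T.card := by
    have : 2 ≤ C2 * (4 / (3 * c0) + 2) * U * ℓ := by
      have h3 : 2 ≤ C2 * (4 / (3 * c0) + 2) * U := by nlinarith
      nlinarith
    linarith
  obtain ⟨p0, hp0, hp0'⟩ : ∃ p ∈ T, ¬ (p 1 = 0 ∧ p 2 = 0) := by
    by_contra hcon
    push Not at hcon
    have h3 : T.card ≤ 1 := by
      rw [Finset.card_le_one]
      intro p hp q hq
      by_cases hp1 : p 1 = 0 ∧ p 2 = 0
      · by_cases hq1 : q 1 = 0 ∧ q 2 = 0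
        · exact hinj p hp q hq (hp1.1.trans hq1.1.symm) (hp1.2.trans hq1.2.symm)
        · exact absurd (hcon q hq) (by simpa using hq1)
      · exact absurd (hcon p hp) (by simpa using hp1)
    have h4 : (T.card : ℝ) ≤ 1 := by exact_mod_cast h3
    linarith
  obtain ⟨h1, h3, a, b, hab, hgen⟩ := deg_gen μ1 μ2 hμ (p0 1) (p0 2) hp0' (hTμ p0 hp0)
  -- the projection
  let Ψ : (Fin 3 → ℤ) → (Fin 2 → ℤ) := fun p => ![p 0, a * p 1 + b * p 2]
  have hLΨ : ∀ p ∈ T, degL h1 h3 (Ψ p) = p := by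
    intro p hp
    obtain ⟨e1, e2⟩ := hgen (p 1) (p 2) (hTμ p hp)
    funext i
    fin_cases i
    · rfl
    · exact e1.symm
    · exact e2.symm
  have hΨinj : Set.InjOn Ψ (T : Set (Fin 3 → ℤ)) := by
    intro p hp q hq he
    rw [← hLΨ p hp, ← hLΨ q hq, he]
  set S := T.image Ψ with hS
  have hSL : ∀ s ∈ S, degL h1 h3 s ∈ T := by
    intro s hs
    obtain ⟨p, hp, rfl⟩ := Finset.mem_image.1 hs
    rw [hLΨ p hp]; exact hp
  have hScard : S.card = T.card := Finset.card_image_of_injOn hΨinj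
  have hh : ¬ (h1 = 0 ∧ h3 = 0) := by
    rintro ⟨rfl, rfl⟩
    simp at hab
  -- second coordinates
  have hS1 : ∀ s ∈ S, ∀ t ∈ S, s 1 = t 1 → s = t := by
    intro s hs t ht hst
    have h4 : degL h1 h3 s = degL h1 h3 t := by
      apply hinj _ (hSL s hs) _ (hSL t ht)
      · simp [degL, hst]
      · simp [degL, hst]
    funext i
    fin_cases i
    · exact congrFun h4 0
    · exact hst
  let γ' : Fin 2 → L := ![γ 0, γ 1 ^ h1 * γ 2 ^ h3]
  let lam' : Fin 2 → ℂ := ![lam 0, h1 * lam 1 + h3 * lam 2]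
  have hγ' : ∀ i, γ' i ≠ 0 := by
    intro i
    fin_cases i
    · exact hSz.ne 0
    · exact mul_ne_zero (zpow_ne_zero _ (hSz.ne 1)) (zpow_ne_zero _ (hSz.ne 2))
  -- relations
  have hrel : ∀ n n' : Fin 2 → ℤ, ∏ i, γ' i ^ (n i) = 1 → ∏ i, γ' i ^ (n' i) = 1 →
      n' 1 • n = n 1 • n' := by
    intro n n' hn hn'
    have e1 : γ' 0 ^ (n' 1 * n 0 - n 1 * n' 0) = 1 := by
      rw [Fin.prod_univ_two] at hn hn'
      have e2 : (γ' 0 ^ n 0 * γ' 1 ^ n 1) ^ (n' 1) = 1 := by rw [hn, one_zpow]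
      have e3 : (γ' 0 ^ n' 0 * γ' 1 ^ n' 1) ^ (n 1) = 1 := by rw [hn', one_zpow]
      rw [mul_zpow, ← zpow_mul, ← zpow_mul] at e2 e3
      rw [zpow_sub₀ (hγ' 0), mul_comm (n' 1), mul_comm (n 1)]
      have e4 : γ' 1 ^ (n 1 * n' 1) ≠ 0 := zpow_ne_zero _ (hγ' 1)
      have e5 : γ' 0 ^ (n' 0 * n 1) ≠ 0 := zpow_ne_zero _ (hγ' 0)
      rw [div_eq_one_iff_eq e5]
      apply mul_right_cancel₀ e4
      rw [e2, mul_comm (n 1), e3]
    have e2 : n' 1 * n 0 - n 1 * n' 0 = 0 := by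
      by_contra hne
      exact hSz.tor _ hne e1
    funext i
    fin_cases i
    · simpa using sub_eq_zero.1 e2
    · exact mul_comm (n' 1) (n 1)
  -- the size of the fibres
  have hfib : ∀ z ∈ S.image (fun p : Fin 2 → ℤ => φ (∏ i, γ' i ^ (p i))),
      ((S.filter fun p => φ (∏ i, γ' i ^ (p i)) = z).card : ℝ) ≤ (4 / (3 * c0) + 2) * U := by
    intro z hz
    set F := S.filter fun p => φ (∏ i, γ' i ^ (p i)) = z with hF
    have hFS : ∀ s ∈ F, s ∈ S := fun s hs => (Finset.mem_filter.1 hs).1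
    have hdiff : ∀ s ∈ F, ∀ t ∈ F, ∏ i, γ' i ^ ((s - t) i) = 1 := by
      intro s hs t ht
      have e1 : ∏ i, γ' i ^ (s i) = ∏ i, γ' i ^ (t i) :=
        φ.injective ((Finset.mem_filter.1 hs).2.trans (Finset.mem_filter.1 ht).2.symm)
      have e2 : ∏ i, γ' i ^ (t i) ≠ 0 := Finset.prod_ne_zero_iff.2 fun i _ => zpow_ne_zero _ (hγ' i)
      calc ∏ i, γ' i ^ ((s - t) i) = ∏ i, γ' i ^ (s i) / γ' i ^ (t i) :=
            Finset.prod_congr rfl fun i _ => zpow_sub₀ (hγ' i) _ _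
        _ = 1 := by rw [Finset.prod_div_distrib, e1, div_self e2]
    have hnd : ∀ s ∈ F, ∀ t ∈ F, nrm (degL h1 h3 (s - t)) ≤ 2 * U / 3 := by
      intro s hs t ht
      rw [degL_sub]
      exact hsub _ (hSL s (hFS s hs)) _ (hSL t (hFS t ht))
    by_cases hcard1 : F.card ≤ 1
    · have h4 : (F.card : ℝ) ≤ 1 := by exact_mod_cast hcard1
      nlinarith
    · obtain ⟨s0, hs0, t0, ht0, hst0⟩ := Finset.one_lt_card.1 (not_le.1 hcard1)
      set n0 := s0 - t0 with hn0
      have hn01 : n0 1 ≠ 0 := by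
        intro he
        exact hst0 (hS1 s0 (hFS _ hs0) t0 (hFS _ ht0) (sub_eq_zero.1 he))
      have hn01' : (0 : ℝ) < |((n0 1 : ℤ) : ℝ)| := abs_pos.2 (by exact_mod_cast hn01)
      set ρ := nrm (degL h1 h3 n0) / |((n0 1 : ℤ) : ℝ)| with hρ
      have hnρ : ∀ s ∈ F, ∀ t ∈ F, nrm (degL h1 h3 (s - t)) = ρ * |((s 1 : ℤ) : ℝ) - (t 1 : ℤ)| := by
        intro s hs t ht
        have e1 := hrel (s - t) n0 (hdiff s hs t ht) (hdiff s0 hs0 t0 ht0)
        have e2 := congrArg (fun u => nrm (degL h1 h3 u)) e1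
        simp only [degL_smul, hSz.smul] at e2
        rw [hρ, div_mul_eq_mul_div, eq_div_iff hn01'.ne', mul_comm, e2, mul_comm]
        congr 1
        rw [Pi.sub_apply]
        push_cast
        rfl
      have hL0 : ∀ s ∈ F, ∀ t ∈ F, s ≠ t → c0 ≤ nrm (degL h1 h3 (s - t)) := by
        intro s hs t ht hne
        apply hSz.low
        intro he
        apply hne
        rw [degL_sub, sub_eq_zero] at he
        have h4 := hinj _ (hSL s (hFS s hs)) _ (hSL t (hFS t ht)) (congrFun he 1) (congrFun he 2)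
        have h5 : s = t := by
          have h6 := congrFun he 0
          have h7 := congrFun he 1
          have h8 := congrFun he 2
          simp only [degL, Matrix.cons_val_zero, Matrix.cons_val_one, Matrix.cons_val_two,
            Matrix.tail_cons, Matrix.head_cons, Matrix.cons_val] at h6 h7 h8
          have h9 : s 1 = t 1 := by
            rcases not_and_or.1 hh with h10 | h10
            · exact mul_right_cancel₀ h10 h7
            · exact mul_right_cancel₀ h10 h8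
          funext i
          fin_cases i
          · exact h6
          · exact h9
        exact h5
      have hpack := deg_pack F (fun s => ρ * ((s 1 : ℤ) : ℝ) / c0) (ρ * ((s0 1 : ℤ) : ℝ) / c0)
        (2 * U / 3 / c0) (by positivity) ?_ ?_
      · have e1 : 2 * (2 * U / 3 / c0) + 2 ≤ (4 / (3 * c0) + 2) * U := by
          have e2 : 2 * (2 * U / 3 / c0) = 4 / (3 * c0) * U := by
            field_simp
            ring
          rw [e2]
          nlinarith
        linarith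
      · intro s hs
        have e1 := hnd s hs s0 hs0
        rw [hnρ s hs s0 hs0] at e1
        have hρ0 : 0 ≤ ρ := by
          have e2 := hL0 s0 hs0 t0 ht0 hst0
          exact div_nonneg (by rw [← hn0] at e2; linarith) hn01'.le
        have e3 : ρ * ((s 1 : ℤ) : ℝ) / c0 - ρ * ((s0 1 : ℤ) : ℝ) / c0 =
            ρ * (((s 1 : ℤ) : ℝ) - ((s0 1 : ℤ) : ℝ)) / c0 := by ring
        rw [e3, abs_div, abs_mul, abs_of_pos hc0, abs_of_nonneg hρ0]
        exact div_le_div_of_nonneg_right e1 hc0.le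
      · intro s hs t ht hne
        have e1 := hL0 s hs t ht hne
        rw [hnρ s hs t ht] at e1
        have hρ0 : 0 ≤ ρ := by
          have e2 := hL0 s0 hs0 t0 ht0 hst0
          exact div_nonneg (by rw [← hn0] at e2; linarith) hn01'.le
        have e3 : ρ * ((s 1 : ℤ) : ℝ) / c0 - ρ * ((t 1 : ℤ) : ℝ) / c0 =
            ρ * (((s 1 : ℤ) : ℝ) - ((t 1 : ℤ) : ℝ)) / c0 := by ring
        rw [e3, abs_div, abs_mul, abs_of_pos hc0, abs_of_nonneg hρ0, le_div_iff₀ hc0, one_mul]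
        exact e1
  have himg : (T.card : ℝ) ≤ (4 / (3 * c0) + 2) * U *
      (S.image (fun p : Fin 2 → ℤ => φ (∏ i, γ' i ^ (p i)))).card := by
    rw [← hScard]
    have e1 : (S.card : ℝ) = ∑ z ∈ S.image (fun p : Fin 2 → ℤ => φ (∏ i, γ' i ^ (p i))),
        ((S.filter fun p => φ (∏ i, γ' i ^ (p i)) = z).card : ℝ) := by
      rw [← Nat.cast_sum]
      congr 1
      exact Finset.card_eq_sum_card_image _ _
    rw [e1]
    refine (Finset.sum_le_sum hfib).trans ?_
    rw [Finset.sum_const, nsmul_eq_mul]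
    exact le_of_eq (mul_comm _ _)
  -- application of M2
  have hsum : ∀ s ∈ S, ∀ t ∈ S, nrm (degL h1 h3 (s + t)) ≤ U := by
    intro s hs t ht
    rw [degL_add]
    have := hadd _ (hSL s hs) _ (hSL t ht)
    linarith
  have hfin := h2 L hD φ γ' lam' S U ℓ Z hU hℓ hZ hlZ hlU hγ' ?_ ?_ ?_ ?_ ?_ hS1 ?_ ?_
  · refine le_trans (Real.exp_le_exp.2 ?_) hfin
    have : C2 * U * ℓ ≤ C2 * (4 / (3 * c0) + 2) * U * ℓ := by
      have h4 : C2 ≤ C2 * (4 / (3 * c0) + 2) := by nlinarith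
      have h5 : C2 * U ≤ C2 * (4 / (3 * c0) + 2) * U := by nlinarith
      nlinarith
    linarith
  · intro i
    fin_cases i
    · exact hSz.ex 0
    · change Complex.exp (h1 * lam 1 + h3 * lam 2) = φ (γ 1 ^ h1 * γ 2 ^ h3)
      rw [Complex.exp_add, Complex.exp_int_mul, Complex.exp_int_mul, hSz.ex, hSz.ex, map_mul,
        map_zpow₀, map_zpow₀]
  · intro s hs t ht
    rw [degL_lam]
    exact (hSz.log _).trans (hsum s hs t ht)
  · intro s hs t ht τ
    rw [degL_prod]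
    exact (hSz.conj _ τ).trans (Real.exp_le_exp.2 (hsum s hs t ht))
  · intro s hs t ht
    obtain ⟨n, hn0, hn1, hn2⟩ := hSz.den (degL h1 h3 (s + t))
    refine ⟨n, hn0, hn1.trans (Real.exp_le_exp.2 (hsum s hs t ht)), ?_⟩
    rw [degL_prod]
    exact hn2
  · intro s hs t ht i
    have h4 := hSz.coo _ (hsum s hs t ht)
    fin_cases i
    · exact h4 0
    · have h5 := h4 1
      have h6 := h4 2
      simp only [degL, Matrix.cons_val_zero, Matrix.cons_val_one, Matrix.cons_val_two,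
        Matrix.tail_cons, Matrix.head_cons, Matrix.cons_val] at h5 h6
      change |((((s + t) 1 : ℤ)) : ℝ)| ≤ Z
      push_cast at h5 h6 ⊢
      rw [abs_mul] at h5 h6
      have h7 := abs_nonneg (((s + t) 1 : ℤ) : ℝ)
      rcases not_and_or.1 hh with h8 | h8
      · have h9 : (1 : ℝ) ≤ |(h1 : ℝ)| := by
          rw [← Int.cast_abs]
          exact_mod_cast Int.one_le_abs h8
        nlinarith
      · have h9 : (1 : ℝ) ≤ |(h3 : ℝ)| := by
          rw [← Int.cast_abs]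
          exact_mod_cast Int.one_le_abs h8
        nlinarith
  · rw [hScard]
    refine le_trans ?_ hcard
    have h4 : C2 ≤ C2 * (4 / (3 * c0) + 2) := by nlinarith
    have h5 : C2 * U ≤ C2 * (4 / (3 * c0) + 2) * U := by nlinarith
    nlinarith
  · have h4 : C2 * (4 / (3 * c0) + 2) * U * ℓ ≤ (4 / (3 * c0) + 2) * U *
        (S.image (fun p : Fin 2 → ℤ => φ (∏ i, γ' i ^ (p i)))).card := hcard.trans himg
    have h5 : 0 < (4 / (3 * c0) + 2) * U := by positivity
    have h6 : (4 / (3 * c0) + 2) * U * (C2 * ℓ) ≤ (4 / (3 * c0) + 2) * U *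
        (S.image (fun p : Fin 2 → ℤ => φ (∏ i, γ' i ^ (p i)))).card := by
      linarith
    exact le_of_mul_le_mul_left h6 h5

end Pool.Helper99.BK
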